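import Pool.Agent.LibCV66.P6
import Pool.Agent.LibAC36.Ker
import Pool.Agent.LibAC34.CDeg

/-!
The degree of an endomorphism of an elliptic curve.
-/

open WeierstrassCurve Pool.Agent.LibBH2 Pool.Agent.LibIG50 Pool.Agent.LibCHd Pool.Agent.LibAC34
open scoped Classical

namespace Pool.Agent.LibAC84E

variable {k : Type} [Field k]

/-- a point, as a projective variety -/
def pY (k : Type) [Field k] : Prj k := ⟨0, ∅, by simp⟩

variable {E : WeierstrassCurve k} {K : Type} [Field K] [Algebra k K]

/-- a point of the curve, as a point of the product of one curve and a point -/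
def pt (P : (E⁄K).toAffine.Point) : Pnt (fun _ : Fin 1 => E) (pY k) K where
  z _ := P
  y _ := 1
  y_ne h := one_ne_zero (congrFun h 0)
  mem _ h := h.elim

theorem pt_map {K' : Type} [Field K'] [Algebra k K'] (σ : K →ₐ[k] K')
    (P : (E⁄K).toAffine.Point) : (pt P).map σ = pt (mp σ P) := by
  apply pnt_ext
  · rfl
  · funext a
    exact map_one σ

/-- the class of a point -/
noncomputable def cl (P : (E⁄K).toAffine.Point) : CH (fun _ : Fin 1 => E) (pY k) 1 :=
  QuotientAddGroup.mk (cyc (pt P))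

variable [CharZero k] [IsAlgClosed k] [E.IsElliptic]

theorem gen1_gen : Gen1 (Algebra.ofId k (KE E)) E (genPt E) := by
  have htr : Transcendental k (DE E).s := by
    intro h
    exact RatFunc.transcendental_X
      ((isAlgebraic_algHom_iff (DE E).ι (DE E).ι.toRingHom.injective).1 h)
  refine ⟨_, _, _, rfl, fun G hG => ?_, ?_⟩
  · have h1 := (transcendental_iff.1 htr) G
    intro h0
    apply hG
    apply h1
    rw [Polynomial.aeval_def]
    exact h0
  · have h1 := adjoin_coo_some (k := k) (E := E) (M := KE E) ∅ (DE E).s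
      ((DE E).w - algebraMap k (KE E) (1 / 2) *
        (algebraMap k (KE E) E.a₁ * (DE E).s + algebraMap k (KE E) E.a₃))
      ((Affine.equation_iff_nonsingular_of_Δ_ne_zero
        (W := E⁄(KE E)) (baseChange_Δ_ne (KE E) E)).1 (gen_equation E))
    rw [Set.empty_union, Set.empty_union] at h1
    have h2 : IntermediateField.adjoin k (coo (genPt E)) = ⊤ := adjoin_genPt
    have h3 := h1.symm.trans h2
    rw [eq_top_iff, ← h3]
    exact IntermediateField.adjoin.mono _ _ _ Set.subset_union_right

/-- the class of the image of the generic point under `f` is a multiple of the class of the curve -/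
theorem cl_deg (f : Hm E E) : ∃ d : ℕ, ((∃ p, f.k0 p ≠ 0) → 0 < d) ∧
    ((∀ (F : Type) [Field F] [Algebra k F] (P : (E⁄F).toAffine.Point), f.f F P = 0) → d = 0) ∧
    ∀ g : Hm E E, cl (g.f _ (f.f _ (genPt E))) = d • cl (g.f _ (genPt E)) := by
  by_cases hf : ∃ p, f.k0 p ≠ 0
  · obtain ⟨x, y, hxy, hη, hx⟩ := gen1_w (gen1_gen (E := E)) f hf
    obtain ⟨σ, hσ, hσξ⟩ := gen1_lift (Algebra.ofId k (KE E)) (genPt E) gen1_gen
      (Algebra.ofId k (KE E)) x y hxy hx
    rw [← hη] at hσξ
    refine ⟨Module.finrank σ.fieldRange (KE E), fun _ => ?_, fun h0 => ?_, fun g => ?_⟩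
    · have h1 : FiniteDimensional σ.fieldRange (KE E) := by
        apply LibCV66.finite_of_trdeg (D := 1) (funF_KE (E := E))
        have h2 : Algebra.trdeg k (KE E) = ((1 : ℕ) : Cardinal) := (funF_KE (E := E)).trdeg
        rw [← h2]
        exact (σ.equivFieldRange : KE E ≃ₐ[k] σ.fieldRange).trdeg_eq.le
      exact Module.finrank_pos
    · obtain ⟨p, hp⟩ := hf
      exfalso
      apply hp
      unfold Hm.k0
      rw [h0]
      rfl
    · unfold cl
      rw [← hσξ, g.nat, ← pt_map, cyc_map_deg]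
      exact map_nsmul (QuotientAddGroup.mk' (RatEq (fun _ : Fin 1 => E) (pY k) 1)) _ _
  · have h0 : ∀ (F : Type) [Field F] [Algebra k F] (P : (E⁄F).toAffine.Point), f.f F P = 0 := by
      rcases LibAC36.zero_or f with h | h
      · exact h
      · exact absurd h hf
    refine ⟨0, fun h => absurd h hf, fun _ => rfl, fun g => ?_⟩
    rw [h0, map_zero, zero_nsmul]
    have h1 : cyc (pt (0 : (E⁄(KE E)).toAffine.Point)) = 0 := by
      refine cyc_eq_zero_of_fld (d := 1) (funF_KE (E := E)) _ ⊥ ?_ ?_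
      · have h2 : Algebra.trdeg k (⊥ : IntermediateField k (KE E)) = 0 := by
          rw [(IntermediateField.botEquiv k (KE E)).trdeg_eq, trdeg_eq_zero (R := k) (A := k)]
        rw [h2]
        exact_mod_cast one_pos
      · refine fld_le _ _ (fun i => ⟨0, ?_⟩) fun a b => ?_
        · exact (map_zero _).symm
        · simp only [pt, div_one]
          exact one_mem _
    unfold cl
    rw [h1]
    rfl

/-- the parallelogram law -/
theorem cl_par (f g : Hm E E) : cl (f.f _ (genPt E) + g.f _ (genPt E)) +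
    cl (f.f _ (genPt E) - g.f _ (genPt E)) =
      (2 : ℕ) • cl (f.f _ (genPt E)) + (2 : ℕ) • cl (g.f _ (genPt E)) := by
  have h1 := parH (W := fun _ : Fin 1 => E) (Y := pY k) (fun _ => inferInstance)
    (gen1_gen (E := E)) (d := 0) (funF_KE (E := E)) (pt (0 : (E⁄k).toAffine.Point))
    (fun _ => f) (fun _ => g)
  have e : ∀ P : (E⁄(KE E)).toAffine.Point, Pnt.add (fun _ : Fin 1 => P)
      ((pt (0 : (E⁄k).toAffine.Point)).map (Algebra.ofId k (KE E))) = pt P := by
    intro P
    rw [pt_map, map_zero]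
    apply pnt_ext
    · funext n
      exact add_zero P
    · rfl
  rw [e, e, e, e] at h1
  have h2 : (QuotientAddGroup.mk' (RatEq (fun _ : Fin 1 => E) (pY k) 1))
      (cyc (pt (f.f _ (genPt E) + g.f _ (genPt E))) +
        cyc (pt (f.f _ (genPt E) - g.f _ (genPt E))) -
        2 • cyc (pt (f.f _ (genPt E))) - 2 • cyc (pt (g.f _ (genPt E)))) = 0 :=
    (QuotientAddGroup.eq_zero_iff _).2 h1
  rw [map_sub, map_sub, map_add, map_nsmul, map_nsmul] at h2
  rw [← sub_eq_zero]
  rw [← h2]
  unfold cl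
  simp only [QuotientAddGroup.mk'_apply]
  abel

/-- the identity of the curve as a homomorphism of the product of one curve -/
noncomputable def prj : LibCV66.PH (fun _ : Fin 1 => E) E where
  f F _ _ := AddMonoidHom.mk' (fun P => P 0) fun _ _ => rfl
  nat _ _ _ _ _ _ _ _ := rfl
  sp _ _ _ _ _ _ h := h 0

/-- the class of the curve has infinite order -/
theorem cl_free (n : ℤ) (h : n • cl (genPt E) = 0) : n = 0 := by
  let Ω : Type := AlgebraicClosure (KE E)
  let s₀ : KE E →ₐ[k] Ω := IsScalarTower.toAlgHom k (KE E) Ω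
  set η : ∀ _ : Fin 1, (E⁄Ω).toAffine.Point := fun _ => mp s₀ (genPt E) with hη
  have hgn : LibCV66.Gn (V := fun _ : Fin 1 => E) η := by
    rw [hη, LibCV66.gn_map s₀ (fun _ : Fin 1 => genPt E)]
    unfold LibCV66.Gn
    have h1 : LibCV66.cof (V := fun _ : Fin 1 => E) (fun _ : Fin 1 => genPt E) = ⊤ := by
      unfold LibCV66.cof
      rw [eq_top_iff, ← adjoin_genPt (E := E)]
      exact IntermediateField.adjoin.mono _ _ _ fun c hc => ⟨0, hc⟩
    rw [h1, IntermediateField.topEquiv.trdeg_eq]
    exact (funF_KE (E := E)).trdeg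
  have hfin := LibCV66.emb_finite (Ω := Ω) (fun _ => inferInstance)
    (fun _ : Fin 1 => prj (E := E)) hgn (funF_KE (E := E)) (pt (genPt E)).z
  have hcyc := LibCV66.phi_cyc (Ω := Ω) (fun _ => inferInstance)
    (fun _ : Fin 1 => prj (E := E)) (prj (E := E)) hgn (funF_KE (E := E)) (pt (genPt E))
  have htor := LibCV66.phi_torsion (Ω := Ω) (D := 1) (fun _ => inferInstance)
    (fun _ => inferInstance) (inferInstance : E.IsElliptic) (fun _ : Fin 1 => prj (E := E))
    (prj (E := E)) hgn (c := n • cyc (pt (genPt E))) (by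
      have h1 : (QuotientAddGroup.mk (n • cyc (pt (genPt E))) :
        CH (fun _ : Fin 1 => E) (pY k) 1) = n • cl (genPt E) := rfl
      rw [h1, h]
      exact IsOfFinAddOrder.zero)
  rw [map_zsmul, hcyc] at htor
  obtain ⟨m, hm, hm0⟩ := isOfFinAddOrder_iff_nsmul_eq_zero.1 htor
  have h2 := congrArg Prod.fst hm0
  rw [finsum_mem_eq_finite_toFinset_sum _ hfin] at h2
  simp only [Prod.smul_fst, Prod.fst_sum, Finset.sum_const, Prod.fst_zero, smul_eq_mul,
    nsmul_eq_mul, mul_one] at h2
  have h3 : 0 < hfin.toFinset.card := by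
    refine Finset.card_pos.2 ⟨s₀, ?_⟩
    rw [Set.Finite.mem_toFinset]
    intro a
    rfl
  have h4 : (m : ℤ) ≠ 0 := by exact_mod_cast hm.ne'
  have h5 : ((hfin.toFinset.card : ℕ) : ℤ) ≠ 0 := by exact_mod_cast h3.ne'
  rcases mul_eq_zero.1 h2 with h6 | h6
  · exact absurd h6 h4
  · rcases mul_eq_zero.1 h6 with h7 | h7
    · exact h7
    · exact absurd h7 h5

end Pool.Agent.LibAC84E
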