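import Pool.Agent.LibAC84H.Quad

/-!
A commutative ring with a positive definite multiplicative quadratic form is an order in the rational
numbers or in an imaginary quadratic field, up to multiplication by integers.
-/

open scoped ComplexConjugate

namespace Pool.Agent.LibAC84E

open Pool.Agent.LibAC84H

section ring
variable {R : Type*} [CommRing R] (q : R → ℤ)
  (par : ∀ f g, q (f + g) + q (f - g) = 2 * q f + 2 * q g)
  (mul : ∀ f g, q (f * g) = q f * q g) (pos : ∀ f, f ≠ 0 → 0 < q f)
include par mul pos

/-- exists_polar for integral valued forms in any universe -/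
theorem polar : ∃ B : R → R → ℤ, (∀ u v, B u v = B v u) ∧ (∀ u v, q (u + v) = q u + q v + B u v) ∧
      (∀ u u' v, B (u + u') v = B u v + B u' v) := by
  have h := par
  have h0 : q 0 = 0 := by
    have := h 0 0
    simp only [add_zero, sub_zero] at this
    linarith
  have hneg : ∀ v, q (-v) = q v := by
    intro v
    have := h 0 v
    simp only [zero_add, zero_sub] at this
    linarith
  refine ⟨fun u v => q (u + v) - q u - q v, fun u v => by simp only [add_comm u v]; ring,
    fun u v => by ring, ?_⟩
  have hJ : ∀ u u' v, (q (u + u' + v) - q (u + u') - q v) + (q (u - u' + v) - q (u - u') - q v) =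
      2 * (q (u + v) - q u - q v) := by
    intro u u' v
    have h1 := h (u + v) u'
    have h2 := h (u - v) u'
    have h3 := h u v
    have h4 := h (u + u') v
    have h5 := h (u - u') v
    have h6 := h u u'
    rw [show u + v + u' = u + u' + v by abel, show u + v - u' = u - u' + v by abel] at h1
    rw [show u - v + u' = u + u' - v by abel, show u - v - u' = u - u' - v by abel] at h2
    linarith
  intro u u' v
  have h1 := hJ u u' v
  have h2 := hJ u' u v
  have h3 := hJ 0 (u - u') v
  rw [zero_add, zero_add, zero_sub, neg_sub, h0] at h3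
  rw [show u' + u = u + u' by abel] at h2
  linarith

theorem q_zero : q 0 = 0 := by
  have := par 0 0
  simp only [add_zero, sub_zero] at this
  linarith

theorem eq_zero_of {f : R} (h : q f = 0) : f = 0 := by
  by_contra hf
  exact absurd h (pos f hf).ne'

theorem q_zsmul (m : ℤ) (f : R) : q (m • f) = m ^ 2 * q f := by
  obtain ⟨B, hB, hqB, hadd⟩ := polar q par mul pos
  have hz : ∀ (m : ℤ) (u v : R), B (m • u) v = m * B u v := by
    intro m u v
    let g : R →+ ℤ := AddMonoidHom.mk' (fun u => B u v) (fun a b => hadd a b v)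
    have := map_zsmul g m u
    rw [smul_eq_mul] at this
    exact this
  have hdiag : ∀ u, B u u = 2 * q u := by
    intro u
    have h1 := hqB u u
    have h2 := par u u
    rw [sub_self, q_zero q par mul pos] at h2
    linarith
  have h1 := hdiag (m • f)
  rw [hz, hB, hz, hdiag] at h1
  linarith

theorem torsion_free {m : ℤ} {f : R} (hm : m ≠ 0) (h : m • f = 0) : f = 0 := by
  have h1 := q_zsmul q par mul pos m f
  rw [h, q_zero q par mul pos] at h1
  rcases mul_eq_zero.1 h1.symm with h2 | h2
  · exact absurd (pow_eq_zero_iff two_ne_zero |>.1 h2) hm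
  · exact eq_zero_of q par mul pos h2

variable [Nontrivial R]

theorem q_one : q 1 = 1 := by
  have h1 := mul 1 1
  rw [mul_one] at h1
  have h2 := pos 1 one_ne_zero
  nlinarith

/-- every element satisfies its characteristic equation -/
theorem char_eq (f : R) : f * f = (q (1 + f) - 1 - q f) • f - (q f) • (1 : R) := by
  obtain ⟨B, hB, hqB, hadd⟩ := polar q par mul pos
  set t : ℤ := q (1 + f) - 1 - q f with ht
  have hz : ∀ (m : ℤ) (u v : R), B (m • u) v = m * B u v := by
    intro m u v
    let g : R →+ ℤ := AddMonoidHom.mk' (fun u => B u v) (fun a b => hadd a b v)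
    have := map_zsmul g m u
    rw [smul_eq_mul] at this
    exact this
  have hz' : ∀ (m : ℤ) (u v : R), B u (m • v) = m * B u v := by
    intro m u v
    rw [hB, hz, hB]
  have hadd' : ∀ u v v', B u (v + v') = B u v + B u v' := by
    intro u v v'
    rw [hB, hadd, hB v, hB v']
  have hsub' : ∀ u v v', B u (v - v') = B u v - B u v' := by
    intro u v v'
    have h1 := hadd' u (v - v') v'
    rw [sub_add_cancel] at h1
    linarith
  have hdiag : ∀ u, B u u = 2 * q u := by
    intro u
    have h1 := hqB u u
    have h2 := par u u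
    rw [sub_self, q_zero q par mul pos] at h2
    linarith
  have e1 : ∀ x, B x (f * x) = t * q x := by
    intro x
    have h1 := hqB x (f * x)
    rw [show x + f * x = (1 + f) * x by ring, mul, mul] at h1
    rw [ht]
    linarith
  have e2 : ∀ x y, B x (f * y) + B y (f * x) = t * B x y := by
    intro x y
    have h1 := e1 (x + y)
    rw [mul_add, hadd, hadd', hadd', e1, e1, hqB x y] at h1
    linarith
  have e3 : ∀ x y, B (f * x) (f * y) = q f * B x y := by
    intro x y
    have h1 := hqB (f * x) (f * y)
    rw [← mul_add, mul, mul, mul, hqB x y] at h1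
    linarith
  set z : R := f * f - t • f + (q f) • (1 : R) with hz1
  have e4 : B z z = 0 := by
    have h1 := e2 z (f * 1)
    rw [e3 1 z] at h1
    nth_rewrite 2 [hz1]
    rw [hadd', hsub', hz', hz']
    rw [mul_one] at h1
    rw [hB 1 z] at h1
    linarith
  rw [hdiag] at e4
  have e5 : z = 0 := eq_zero_of q par mul pos (by linarith)
  rw [hz1] at e5
  linear_combination e5

end ring

/-- Hurwitz' theorem for commutative rings -/
theorem hurwitz {R : Type*} [CommRing R] (q : R → ℤ)
    (par : ∀ f g, q (f + g) + q (f - g) = 2 * q f + 2 * q g)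
    (mul : ∀ f g, q (f * g) = q f * q g) (pos : ∀ f, f ≠ 0 → 0 < q f) :
    ∃ (w : R) (t n : ℤ) (ω : ℂ), w * w = t • w - n • (1 : R) ∧ ω + conj ω = t ∧ ω * conj ω = n ∧
      (ω.im = 0 → w = 0 ∧ ω = 0) ∧
      ∀ f, ∃ (Q : ℕ) (x y : ℤ), 0 < Q ∧ Q • f = x • (1 : R) + y • w := by
  rcases subsingleton_or_nontrivial R with hR | hR
  · refine ⟨0, 0, 0, 0, Subsingleton.elim _ _, by simp, by simp, fun _ => ⟨rfl, rfl⟩,
      fun f => ⟨1, 0, 0, one_pos, Subsingleton.elim _ _⟩⟩
  have tf : ∀ {m : ℤ} {f : R}, m ≠ 0 → m • f = 0 → f = 0 := fun hm h =>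
    torsion_free q par mul pos hm h
  have ch := char_eq q par mul pos
  have q1 := q_one q par mul pos
  have qz := q_zsmul q par mul pos
  -- the trace
  obtain ⟨t, ht⟩ : ∃ t : R → ℤ, ∀ f, t f = q (1 + f) - 1 - q f := ⟨_, fun _ => rfl⟩
  have ch' : ∀ f, f * f = t f • f - (q f) • (1 : R) := fun f => by rw [ht]; exact ch f
  -- the square of `2 f - t f`
  have hsq : ∀ f : R, ((2 : ℤ) • f - t f • (1 : R)) * ((2 : ℤ) • f - t f • (1 : R)) =
      (t f ^ 2 - 4 * q f) • (1 : R) := by
    intro f
    have h1 := ch' f
    simp only [zsmul_eq_mul] at h1 ⊢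
    push_cast
    linear_combination 4 * h1
  have hq0 : ∀ f : R, q ((2 : ℤ) • f - t f • (1 : R)) = 4 * q f - t f ^ 2 := by
    intro f
    have h1 := congrArg q (hsq f)
    rw [mul, qz, q1, mul_one] at h1
    -- the sign: use the parallelogram law
    have h2 := par ((2 : ℤ) • f) (t f • (1 : R))
    have h3 : ((t f) : ℤ) = q (1 + f) - 1 - q f := ht f
    obtain ⟨B, hB, hqB, hadd⟩ := polar q par mul pos
    have hz : ∀ (m : ℤ) (u v : R), B (m • u) v = m * B u v := by
      intro m u v
      let g : R →+ ℤ := AddMonoidHom.mk' (fun u => B u v) (fun a b => hadd a b v)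
      have := map_zsmul g m u
      rw [smul_eq_mul] at this
      exact this
    have h4 := hqB ((2 : ℤ) • f) (-(t f) • (1 : R))
    rw [hz, hB, hz, qz, qz, q1] at h4
    have h5 := hqB 1 f
    rw [q1] at h5
    rw [sub_eq_add_neg, ← neg_smul, h4, show B 1 f = t f by rw [h3]; linarith]
    ring
  by_cases hcase : ∀ f : R, t f ^ 2 = 4 * q f
  · refine ⟨0, 0, 0, 0, by simp, by simp, by simp, fun _ => ⟨rfl, rfl⟩, fun f =>
      ⟨2, t f, 0, two_pos, ?_⟩⟩
    have h1 := hq0 f
    rw [hcase f, sub_self] at h1
    have h2 := eq_zero_of q par mul pos h1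
    rw [smul_zero, add_zero]
    have h3 : (2 : ℤ) • f = t f • (1 : R) := sub_eq_zero.1 h2
    rw [← h3]
    simp
  · push Not at hcase
    obtain ⟨w, hw⟩ := hcase
    have hd : t w ^ 2 < 4 * q w := by
      have h1 : (2 : ℤ) • w - t w • (1 : R) ≠ 0 := by
        intro h0
        have h2 := hsq w
        rw [h0, mul_zero] at h2
        by_contra _
        exact one_ne_zero (tf (sub_ne_zero.2 hw) h2.symm)
      have h2 := pos _ h1
      rw [hq0] at h2
      linarith
    have hdR : ((t w : ℤ) : ℝ) ^ 2 < 4 * ((q w : ℤ) : ℝ) := by exact_mod_cast hd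
    set s : ℝ := Real.sqrt (4 * ((q w : ℤ) : ℝ) - ((t w : ℤ) : ℝ) ^ 2) with hs
    have hs2 : s ^ 2 = 4 * ((q w : ℤ) : ℝ) - ((t w : ℤ) : ℝ) ^ 2 :=
      Real.sq_sqrt (by linarith)
    have hs0 : 0 < s := Real.sqrt_pos.2 (by linarith)
    refine ⟨w, t w, q w, ⟨(t w : ℝ) / 2, s / 2⟩, ch' w, ?_, ?_, ?_, ?_⟩
    · apply Complex.ext
      · simp
      · simp
    · apply Complex.ext
      · simp
        nlinarith
      · simp
        ring
    · intro h
      simp only at h
      exact absurd h (by positivity)
    · intro f
      set w0 : R := (2 : ℤ) • w - t w • (1 : R) with hw0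
      set f0 : R := (2 : ℤ) • f - t f • (1 : R) with hf0
      set d : ℤ := 4 * q w - t w ^ 2 with hd0
      set e : ℤ := 4 * q f - t f ^ 2 with he0
      have hdpos : 0 < d := by rw [hd0]; linarith
      have qw0 : q w0 = d := hq0 w
      have qf0 : q f0 = e := hq0 f
      have sw : w0 * w0 = -d • (1 : R) := by
        rw [hw0, hsq w]
        congr 1
        rw [hd0]; ring
      have sf : f0 * f0 = -e • (1 : R) := by
        rw [hf0, hsq f]
        congr 1
        rw [he0]; ring
      set g : R := w0 * f0 with hg
      have qg : q g = d * e := by rw [hg, mul, qw0, qf0]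
      have sg : g * g = (d * e) • (1 : R) := by
        rw [hg, show w0 * f0 * (w0 * f0) = (w0 * w0) * (f0 * f0) by ring, sw, sf]
        simp only [zsmul_eq_mul]
        push_cast
        ring
      have h1 : t g • g = (2 * (d * e)) • (1 : R) := by
        have h2 := ch' g
        rw [sg, qg] at h2
        simp only [zsmul_eq_mul] at h2 ⊢
        push_cast at h2 ⊢
        linear_combination -h2
      have h2 : t g • f0 = (-(2 * e)) • w0 := by
        have h3 : d • (t g • f0 - (-(2 * e)) • w0) = 0 := by
          have h4 : w0 * (t g • g) = w0 * ((2 * (d * e)) • (1 : R)) := by rw [h1]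
          have h5 : w0 * (t g • g) = -(d • (t g • f0)) := by
            rw [hg]
            simp only [zsmul_eq_mul] at sw ⊢
            push_cast at sw ⊢
            linear_combination (t (w0 * f0) : R) * f0 * sw
          rw [h5] at h4
          simp only [zsmul_eq_mul] at h4 ⊢
          push_cast at h4 ⊢
          linear_combination -h4
        exact sub_eq_zero.1 (tf hdpos.ne' h3)
      by_cases htg : t g = 0
      · -- `f` is rational
        rw [htg, zero_smul] at h1
        have h3 : d * e = 0 := by
          by_contra h4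
          exact one_ne_zero (tf (mul_ne_zero two_ne_zero h4) h1.symm)
        have h4 : e = 0 := (mul_eq_zero.1 h3).resolve_left hdpos.ne'
        rw [h4] at qf0
        have h5 := eq_zero_of q par mul pos qf0
        refine ⟨2, t f, 0, two_pos, ?_⟩
        have h6 : (2 : ℤ) • f = t f • (1 : R) := sub_eq_zero.1 h5
        rw [zero_smul, add_zero, ← h6]
        simp
      · have h3 : (2 * t g) • f = (t g * t f + 2 * e * t w) • (1 : R) + (-(4 * e)) • w := by
          rw [hf0, hw0] at h2
          simp only [zsmul_eq_mul] at h2 ⊢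
          push_cast at h2 ⊢
          linear_combination h2
        rcases lt_or_gt_of_ne htg with hlt | hgt
        · refine ⟨(2 * t g).natAbs, -(t g * t f + 2 * e * t w), 4 * e, by omega, ?_⟩
          rw [← natCast_zsmul, Int.natCast_natAbs, abs_of_neg (by linarith)]
          rw [neg_smul, h3, neg_smul, neg_smul]
          abel
        · refine ⟨(2 * t g).natAbs, t g * t f + 2 * e * t w, -(4 * e), by omega, ?_⟩
          rw [← natCast_zsmul, Int.natCast_natAbs, abs_of_pos (by linarith), h3]

end Pool.Agent.LibAC84E
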