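import Pool.Agent.LibAC84E.Deg
import Pool.Agent.LibAC84E.Hur
import Pool.Agent.LibAC6.Dif3

/-!
The endomorphisms of an elliptic curve: up to multiplication by integers they are `x + y w` for one
endomorphism `w`, which is zero or a complex multiplication.
-/

open WeierstrassCurve Pool.Agent.LibBH2 Pool.Agent.LibIG50 Pool.Agent.LibCHd Pool.Agent.LibAC34
open scoped Classical ComplexConjugate

namespace Pool.Agent.LibAC84E

variable {k : Type} [Field k]

theorem hm_ext {V W : WeierstrassCurve k} {φ ψ : Hm V W}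
    (h : ∀ (F : Type) [Field F] [Algebra k F] (P : (V⁄F).toAffine.Point), φ.f F P = ψ.f F P) :
    φ = ψ := by
  obtain ⟨f, n, s⟩ := φ
  obtain ⟨f', n', s'⟩ := ψ
  have : f = f' := by
    funext F i1 i2
    exact AddMonoidHom.ext (h F)
  subst this
  rfl

section ops
variable {V W : WeierstrassCurve k} [W.IsElliptic]

/-- the sum of two homomorphisms -/
noncomputable def hadd (φ ψ : Hm V W) : Hm V W where
  f F _ _ := φ.f F + ψ.f F
  nat F G _ _ _ _ σ P := by
    rw [AddMonoidHom.add_apply, AddMonoidHom.add_apply, φ.nat, ψ.nat, map_add]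
  sp K _ _ v P p h := SpR_add (φ.sp K v P p h) (ψ.sp K v P p h)

/-- the negative of a homomorphism -/
noncomputable def hneg (φ : Hm V W) : Hm V W where
  f F _ _ := -φ.f F
  nat F G _ _ _ _ σ P := by
    rw [AddMonoidHom.neg_apply, AddMonoidHom.neg_apply, φ.nat, map_neg]
  sp K _ _ v P p h := spR_neg (φ.sp K v P p h)

/-- the zero homomorphism -/
noncomputable def hzero : Hm V W where
  f F _ _ := 0
  nat F G _ _ _ _ σ P := by
    rw [AddMonoidHom.zero_apply, AddMonoidHom.zero_apply, map_zero]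
  sp K _ _ v P p _ := rfl

end ops

variable {E : WeierstrassCurve k} [E.IsElliptic]

/-- the ring of endomorphisms -/
@[instance_reducible] noncomputable def endRing (hc : ∀ (f g : Hm E E) (F : Type) [Field F] [Algebra k F]
    (P : (E⁄F).toAffine.Point), f.f F (g.f F P) = g.f F (f.f F P)) : CommRing (Hm E E) :=
  letI : Add (Hm E E) := ⟨hadd⟩
  letI : Mul (Hm E E) := ⟨fun f g => f.comp g⟩
  letI : Neg (Hm E E) := ⟨hneg⟩
  letI : Zero (Hm E E) := ⟨hzero⟩
  letI : One (Hm E E) := ⟨Hm.id E⟩
  CommRing.ofMinimalAxioms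
    (fun f g h => hm_ext fun F _ _ P => add_assoc (f.f F P) (g.f F P) (h.f F P))
    (fun f => hm_ext fun F _ _ P => zero_add (f.f F P))
    (fun f => hm_ext fun F _ _ P => neg_add_cancel (f.f F P))
    (fun f g h => hm_ext fun F _ _ P => rfl)
    (fun f g => hm_ext fun F _ _ P => hc f g F P)
    (fun f => hm_ext fun F _ _ P => rfl)
    (fun f g h => hm_ext fun F _ _ P => map_add (f.f F) (g.f F P) (h.f F P))

variable [CharZero k] [IsAlgClosed k]

/-- **The endomorphisms of an elliptic curve.** -/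
theorem exists_cm (E : WeierstrassCurve k) [E.IsElliptic] :
    ∃ (w : Hm E E) (t n : ℤ) (ω : ℂ), Quad w t n ∧ ω + conj ω = t ∧ ω * conj ω = n ∧
      (ω.im = 0 → (∀ (F : Type) [Field F] [Algebra k F] (P : (E⁄F).toAffine.Point),
        w.f F P = 0) ∧ ω = 0 ∧ t = 0 ∧ n = 0) ∧
      ∀ f : Hm E E, ∃ (Q : ℕ) (x y : ℤ), 0 < Q ∧
        ∀ (F : Type) [Field F] [Algebra k F] (P : (E⁄F).toAffine.Point),
          Q • f.f F P = x • P + y • w.f F P := by
  letI : CommRing (Hm E E) := endRing LibAC6.comp_comm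
  have hadd' : ∀ (f g : Hm E E) (F : Type) [Field F] [Algebra k F]
      (P : (E⁄F).toAffine.Point), (f + g).f F P = f.f F P + g.f F P := fun _ _ _ _ _ _ => rfl
  have hneg' : ∀ (f : Hm E E) (F : Type) [Field F] [Algebra k F]
      (P : (E⁄F).toAffine.Point), (-f).f F P = -f.f F P := fun _ _ _ _ _ => rfl
  have hzero' : ∀ (F : Type) [Field F] [Algebra k F]
      (P : (E⁄F).toAffine.Point), (0 : Hm E E).f F P = 0 := fun _ _ _ _ => rfl
  have hmul' : ∀ (f g : Hm E E) (F : Type) [Field F] [Algebra k F]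
      (P : (E⁄F).toAffine.Point), (f * g).f F P = f.f F (g.f F P) := fun _ _ _ _ _ _ => rfl
  have hone' : ∀ (F : Type) [Field F] [Algebra k F]
      (P : (E⁄F).toAffine.Point), (1 : Hm E E).f F P = P := fun _ _ _ _ => rfl
  have hsub' : ∀ (f g : Hm E E) (F : Type) [Field F] [Algebra k F]
      (P : (E⁄F).toAffine.Point), (f - g).f F P = f.f F P - g.f F P := by
    intro f g F _ _ P
    rw [sub_eq_add_neg, hadd', hneg', sub_eq_add_neg]
  have hz' : ∀ (m : ℤ) (f : Hm E E) (F : Type) [Field F] [Algebra k F]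
      (P : (E⁄F).toAffine.Point), (m • f).f F P = m • f.f F P := by
    intro m f F _ _ P
    let l : Hm E E →+ (E⁄F).toAffine.Point :=
      { toFun := fun f => f.f F P, map_zero' := rfl, map_add' := fun _ _ => rfl }
    exact map_zsmul l m f
  have hn' : ∀ (m : ℕ) (f : Hm E E) (F : Type) [Field F] [Algebra k F]
      (P : (E⁄F).toAffine.Point), (m • f).f F P = m • f.f F P := by
    intro m f F _ _ P
    let l : Hm E E →+ (E⁄F).toAffine.Point :=
      { toFun := fun f => f.f F P, map_zero' := rfl, map_add' := fun _ _ => rfl }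
    exact map_nsmul l m f
  choose q hq1 hq2 hq3 using cl_deg (E := E)
  have hcl : ∀ f : Hm E E, cl (f.f _ (genPt E)) = q f • cl (genPt E) := fun f => hq3 f (Hm.id E)
  have hinj : ∀ a b : ℤ, a • cl (genPt E) = b • cl (genPt E) → a = b := by
    intro a b h
    exact sub_eq_zero.1 (cl_free (a - b) (by rw [sub_smul, h, sub_self]))
  obtain ⟨w, t, n, ω, hw, h1, h2, h3, h4⟩ := hurwitz (R := Hm E E) (fun f => (q f : ℤ))
    (by
      intro f g
      apply hinj
      have := cl_par f g
      rw [← hadd', ← hsub', hcl, hcl, hcl, hcl] at this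
      have e1 : (2 * (q f : ℤ) + 2 * (q g : ℤ)) = ((2 * q f + 2 * q g : ℕ) : ℤ) := by push_cast; rfl
      rw [e1, add_zsmul, natCast_zsmul, natCast_zsmul, natCast_zsmul, this, add_nsmul, mul_nsmul',
        mul_nsmul'])
    (by
      intro f g
      apply hinj
      have e1 := hcl (f * g)
      rw [hmul', hq3 g f, hcl f] at e1
      rw [← Nat.cast_mul, natCast_zsmul, natCast_zsmul, mul_nsmul, e1])
    (by
      intro f hf
      have : 0 < q f := by
        apply hq1
        rcases LibAC36.zero_or f with h | h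
        · exact absurd (hm_ext h) hf
        · exact h
      exact_mod_cast this)
  refine ⟨w, t, n, ω, fun F _ _ P => ?_, h1, h2, fun h => ?_, fun f => ?_⟩
  · have e := congrArg (fun φ : Hm E E => φ.f F P) hw
    rw [hmul', hsub', hz', hz', hone'] at e
    exact e
  · obtain ⟨e1, e2⟩ := h3 h
    rw [e2, map_zero, add_zero] at h1
    rw [e2, zero_mul] at h2
    exact ⟨fun F _ _ P => by rw [e1, hzero'], e2, by exact_mod_cast h1.symm,
      by exact_mod_cast h2.symm⟩
  · obtain ⟨Q, x, y, hQ, e⟩ := h4 f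
    refine ⟨Q, x, y, hQ, fun F _ _ P => ?_⟩
    have e' := congrArg (fun φ : Hm E E => φ.f F P) e
    rw [hn', hadd', hz', hz', hone'] at e'
    exact e'

end Pool.Agent.LibAC84E
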